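import Pool.Agent.Helper2.FX.StG

/-!
# Project FX, module LM: the local model `A × ball`
-/

set_option autoImplicit false

namespace Pool.Agent.Helper13.FX

open Set Metric Pool.Agent.Helper84.FX Pool.Agent.Helper2.FX

section

variable {B : Type} [TopologicalSpace B] {G : Type} [NormedAddCommGroup G] [NormedSpace ℝ G]

lemma lm_norm_one {y v : G} (hy : y ≠ 0) (h : y = ‖y‖ • v) : ‖v‖ = 1 := by
  have h1 : ‖y‖ = ‖y‖ * ‖v‖ := by
    conv_lhs => rw [h]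
    rw [norm_smul, Real.norm_eq_abs, abs_norm]
  have h2 : ‖y‖ ≠ 0 := norm_ne_zero_iff.mpr hy
  have h3 : ‖y‖ * (‖v‖ - 1) = 0 := by linarith
  rcases mul_eq_zero.mp h3 with h4 | h4
  · exact absurd h4 h2
  · linarith

omit [TopologicalSpace B] in
lemma lm_mem_TT {A : Set B} {r : ℝ} {q : (B × G) × G} :
    q ∈ TT (A ×ˢ ball (0 : G) r) Prod.snd ↔
      q.1.1 ∈ A ∧ ‖q.1.2‖ < r ∧ ‖q.2‖ ≤ 1 ∧ q.1.2 = ‖q.1.2‖ • q.2 := by
  constructor
  · rintro ⟨h1, h2, h3⟩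
    refine ⟨h1.1, ?_, h2, h3⟩
    have := h1.2
    rwa [mem_ball_zero_iff] at this
  · rintro ⟨h1, h2, h3, h4⟩
    exact ⟨⟨h1, by rw [mem_ball_zero_iff]; exact h2⟩, h3, h4⟩

lemma lm_part1 (hH : StHEQ) (A : Set B) (r : ℝ) (hr : 0 < r) :
    WE (TT (A ×ˢ ball (0 : G) r) Prod.snd) (A ×ˢ ball (0 : G) r) Prod.fst := by
  refine hH ((B × G) × G) (B × G) _ _ Prod.fst (fun p => ((p.1, (0 : G)), (0 : G))) ?_ ?_ ?_ ?_
  · exact ⟨continuous_fst.continuousOn, fun q hq => hq.1⟩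
  · refine ⟨Continuous.continuousOn (by fun_prop), fun p hp => ?_⟩
    rw [lm_mem_TT]
    refine ⟨hp.1, ?_, ?_, ?_⟩
    · simpa using hr
    · simp
    · simp
  · refine ⟨fun x => ((x.2.1.1, (max 0 (2 * x.1 - 1)) • x.2.1.2), (min 1 (2 * x.1)) • x.2.2),
      ⟨Continuous.continuousOn (by fun_prop), ?_⟩, ?_, ?_⟩
    · rintro ⟨s, q⟩ ⟨hs, hq⟩
      rw [lm_mem_TT] at hq ⊢
      obtain ⟨h1, h2, h3, h4⟩ := hq
      obtain ⟨hs0, hs1⟩ := hs
      simp only at hs0 hs1 h1 h2 h3 h4 ⊢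
      have hl0 : 0 ≤ max 0 (2 * s - 1) := le_max_left _ _
      have hl1 : max 0 (2 * s - 1) ≤ 1 := max_le zero_le_one (by linarith)
      have hm0 : 0 ≤ min 1 (2 * s) := le_min zero_le_one (by linarith)
      have hm1 : min 1 (2 * s) ≤ 1 := min_le_left _ _
      refine ⟨h1, ?_, ?_, ?_⟩
      · rw [norm_smul, Real.norm_eq_abs, abs_of_nonneg hl0]
        calc max 0 (2 * s - 1) * ‖q.1.2‖ ≤ 1 * ‖q.1.2‖ :=
              mul_le_mul_of_nonneg_right hl1 (norm_nonneg _)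
          _ < r := by rw [one_mul]; exact h2
      · rw [norm_smul, Real.norm_eq_abs, abs_of_nonneg hm0]
        calc min 1 (2 * s) * ‖q.2‖ ≤ 1 * 1 :=
              mul_le_mul hm1 h3 (norm_nonneg _) zero_le_one
          _ = 1 := one_mul 1
      · rcases le_total (2 * s) 1 with h | h
        · have : max 0 (2 * s - 1) = 0 := max_eq_left (by linarith)
          rw [this]; simp
        · have : min 1 (2 * s) = 1 := min_eq_left h
          rw [this, one_smul, norm_smul, Real.norm_eq_abs, abs_of_nonneg hl0, mul_smul, ← h4]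
    · intro q _
      have h1 : max (0 : ℝ) (2 * 0 - 1) = 0 := max_eq_left (by norm_num)
      have h2 : min (1 : ℝ) (2 * 0) = 0 := by rw [mul_zero]; exact min_eq_right zero_le_one
      simp only [h1, h2, zero_smul, Function.comp]
    · intro q _
      have h1 : max (0 : ℝ) (2 * 1 - 1) = 1 := by norm_num
      have h2 : min (1 : ℝ) (2 * 1) = 1 := by norm_num
      simp only [h1, h2, one_smul, id]
  · refine ⟨fun x => (x.2.1, x.1 • x.2.2), ⟨Continuous.continuousOn (by fun_prop), ?_⟩, ?_, ?_⟩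
    · rintro ⟨s, p⟩ ⟨hs, hp⟩
      refine ⟨hp.1, ?_⟩
      have h2 := hp.2
      rw [mem_ball_zero_iff] at h2 ⊢
      rw [norm_smul, Real.norm_eq_abs, abs_of_nonneg hs.1]
      calc s * ‖p.2‖ ≤ 1 * ‖p.2‖ := mul_le_mul_of_nonneg_right hs.2 (norm_nonneg _)
        _ < r := by rw [one_mul]; exact h2
    · intro p _
      simp
    · intro p _
      simp

lemma lm_part2 (hH : StHEQ) (A : Set B) (r : ℝ) (hr : 0 < r) :
    WE ((A ×ˢ ball (0 : G) r) ∩ {x | x.2 ≠ 0})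
      (TT (A ×ˢ ball (0 : G) r) Prod.snd ∩ {q | q.2 ≠ 0}) (sg (fun x : B × G => x.2)) := by
  refine hH (B × G) ((B × G) × G) _ _ _
    (fun q => (q.1.1, ((‖q.1.2‖ + r) / 2) • (‖q.2‖⁻¹ • q.2))) ?_ ?_ ?_ ?_
  · refine ⟨?_, ?_⟩
    · refine ContinuousOn.prodMk continuousOn_id ?_
      refine ContinuousOn.smul ?_ continuous_snd.continuousOn
      refine ContinuousOn.inv₀ continuous_snd.norm.continuousOn ?_
      intro x hx
      exact norm_ne_zero_iff.mpr hx.2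
    · rintro ⟨a, y⟩ ⟨⟨ha, hy⟩, hy0⟩
      have hy0' : y ≠ 0 := hy0
      have hn : ‖y‖ ≠ 0 := norm_ne_zero_iff.mpr hy0'
      refine ⟨?_, ?_⟩
      · rw [lm_mem_TT]
        rw [mem_ball_zero_iff] at hy
        refine ⟨ha, hy, ?_, ?_⟩
        · show ‖‖y‖⁻¹ • y‖ ≤ 1
          rw [norm_smul, norm_inv, norm_norm, inv_mul_cancel₀ hn]
        · show y = ‖y‖ • (‖y‖⁻¹ • y)
          rw [smul_smul, mul_inv_cancel₀ hn, one_smul]
      · show ‖y‖⁻¹ • y ≠ 0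
        exact smul_ne_zero (inv_ne_zero hn) hy0'
  · refine ⟨?_, ?_⟩
    · refine ContinuousOn.prodMk (Continuous.continuousOn (by fun_prop)) ?_
      refine ContinuousOn.smul (Continuous.continuousOn (by fun_prop)) ?_
      refine ContinuousOn.smul ?_ continuous_snd.continuousOn
      refine ContinuousOn.inv₀ continuous_snd.norm.continuousOn ?_
      intro x hx
      exact norm_ne_zero_iff.mpr hx.2
    · rintro q ⟨hq, hv⟩
      have hv' : q.2 ≠ 0 := hv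
      rw [lm_mem_TT] at hq
      obtain ⟨h1, h2, h3, h4⟩ := hq
      have hn : ‖q.2‖ ≠ 0 := norm_ne_zero_iff.mpr hv'
      have hp : 0 < (‖q.1.2‖ + r) / 2 := by have := norm_nonneg q.1.2; linarith
      have he : ‖‖q.2‖⁻¹ • q.2‖ = 1 := by
        rw [norm_smul, norm_inv, norm_norm, inv_mul_cancel₀ hn]
      refine ⟨⟨h1, ?_⟩, ?_⟩
      · rw [mem_ball_zero_iff]
        show ‖((‖q.1.2‖ + r) / 2) • (‖q.2‖⁻¹ • q.2)‖ < r
        rw [norm_smul, he, Real.norm_eq_abs, abs_of_pos hp]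
        linarith
      · show ((‖q.1.2‖ + r) / 2) • (‖q.2‖⁻¹ • q.2) ≠ 0
        exact smul_ne_zero hp.ne' (smul_ne_zero (inv_ne_zero hn) hv')
  · refine ⟨fun x => (x.2.1, ((1 - x.1) * ((‖x.2.2‖ + r) / 2) + x.1 * ‖x.2.2‖) •
      (‖x.2.2‖⁻¹ • x.2.2)), ⟨?_, ?_⟩, ?_, ?_⟩
    · refine ContinuousOn.prodMk (Continuous.continuousOn (by fun_prop)) ?_
      refine ContinuousOn.smul (Continuous.continuousOn (by fun_prop)) ?_
      refine ContinuousOn.smul ?_ (Continuous.continuousOn (by fun_prop))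
      refine ContinuousOn.inv₀ (Continuous.continuousOn (by fun_prop)) ?_
      intro x hx
      exact norm_ne_zero_iff.mpr hx.2.2
    · rintro ⟨s, p⟩ ⟨hs, ⟨hp1, hp2⟩, hp0⟩
      have hp0' : p.2 ≠ 0 := hp0
      have hn : 0 < ‖p.2‖ := norm_pos_iff.mpr hp0'
      obtain ⟨hs0, hs1⟩ := hs
      simp only at hs0 hs1 hp1 hp2
      rw [mem_ball_zero_iff] at hp2
      have he : ‖‖p.2‖⁻¹ • p.2‖ = 1 := by
        rw [norm_smul, norm_inv, norm_norm, inv_mul_cancel₀ hn.ne']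
      have hc1 : (1 - s) * ((‖p.2‖ + r) / 2) + s * ‖p.2‖ < r := by
        have h5 : (1 - s) * ((‖p.2‖ + r) / 2) ≤ (1 - s) * ((‖p.2‖ + r) / 2) := le_rfl
        have h6 : (1 - s) * ((‖p.2‖ + r) / 2) + s * ‖p.2‖ =
          ((1 + s) / 2) * ‖p.2‖ + ((1 - s) / 2) * r := by ring
        rw [h6]
        have h7 : ((1 + s) / 2) * ‖p.2‖ < ((1 + s) / 2) * r :=
          mul_lt_mul_of_pos_left hp2 (by linarith)
        have h8 : ((1 + s) / 2) * r + ((1 - s) / 2) * r = r := by ring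
        linarith
      have hc0 : 0 < (1 - s) * ((‖p.2‖ + r) / 2) + s * ‖p.2‖ := by
        have h6 : (1 - s) * ((‖p.2‖ + r) / 2) + s * ‖p.2‖ =
          ((1 + s) / 2) * ‖p.2‖ + ((1 - s) / 2) * r := by ring
        rw [h6]
        have h7 : 0 < ((1 + s) / 2) * ‖p.2‖ := mul_pos (by linarith) hn
        have h8 : 0 ≤ ((1 - s) / 2) * r := mul_nonneg (by linarith) hr.le
        linarith
      refine ⟨⟨hp1, ?_⟩, ?_⟩
      · rw [mem_ball_zero_iff]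
        show ‖((1 - s) * ((‖p.2‖ + r) / 2) + s * ‖p.2‖) • (‖p.2‖⁻¹ • p.2)‖ < r
        rw [norm_smul, he, Real.norm_eq_abs, abs_of_pos hc0, mul_one]
        exact hc1
      · show ((1 - s) * ((‖p.2‖ + r) / 2) + s * ‖p.2‖) • (‖p.2‖⁻¹ • p.2) ≠ 0
        exact smul_ne_zero hc0.ne' (smul_ne_zero (inv_ne_zero hn.ne') hp0')
    · rintro ⟨a, y⟩ ⟨_, hy0⟩
      have hy0' : y ≠ 0 := hy0
      have hn : ‖y‖ ≠ 0 := norm_ne_zero_iff.mpr hy0'
      have he : ‖‖y‖⁻¹ • y‖ = 1 := by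
        rw [norm_smul, norm_inv, norm_norm, inv_mul_cancel₀ hn]
      show (a, ((1 - (0 : ℝ)) * ((‖y‖ + r) / 2) + 0 * ‖y‖) • (‖y‖⁻¹ • y)) =
        (a, ((‖y‖ + r) / 2) • (‖‖y‖⁻¹ • y‖⁻¹ • (‖y‖⁻¹ • y)))
      rw [he, inv_one, one_smul]
      congr 2
      ring
    · rintro ⟨a, y⟩ ⟨_, hy0⟩
      have hy0' : y ≠ 0 := hy0
      have hn : ‖y‖ ≠ 0 := norm_ne_zero_iff.mpr hy0'
      show (a, ((1 - (1 : ℝ)) * ((‖y‖ + r) / 2) + 1 * ‖y‖) • (‖y‖⁻¹ • y)) = (a, y)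
      rw [sub_self, zero_mul, zero_add, one_mul, smul_smul, mul_inv_cancel₀ hn, one_smul]
  · refine ⟨fun x => ((x.2.1.1,
        (‖x.2.1.2‖ + max 0 (1 - 2 * x.1) * ((r - ‖x.2.1.2‖) / 2)) • (‖x.2.2‖⁻¹ • x.2.2)),
        (‖x.2.2‖ + min 1 (2 - 2 * x.1) * (1 - ‖x.2.2‖)) • (‖x.2.2‖⁻¹ • x.2.2)),
        ⟨?_, ?_⟩, ?_, ?_⟩
    · have hcv : ContinuousOn (fun x : ℝ × (B × G) × G => ‖x.2.2‖⁻¹ • x.2.2)
          (II ×ˢ (TT (A ×ˢ ball (0 : G) r) Prod.snd ∩ {q | q.2 ≠ 0})) := by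
        refine ContinuousOn.smul ?_ (Continuous.continuousOn (by fun_prop))
        refine ContinuousOn.inv₀ (Continuous.continuousOn (by fun_prop)) ?_
        intro x hx
        exact norm_ne_zero_iff.mpr hx.2.2
      refine ContinuousOn.prodMk (ContinuousOn.prodMk (Continuous.continuousOn (by fun_prop)) ?_) ?_
      · exact ContinuousOn.smul (Continuous.continuousOn (by fun_prop)) hcv
      · exact ContinuousOn.smul (Continuous.continuousOn (by fun_prop)) hcv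
    · rintro ⟨s, q⟩ ⟨hs, hq, hv⟩
      have hv' : q.2 ≠ 0 := hv
      rw [lm_mem_TT] at hq
      obtain ⟨h1, h2, h3, h4⟩ := hq
      obtain ⟨hs0, hs1⟩ := hs
      simp only at hs0 hs1 h1 h2 h3 h4
      have hn : 0 < ‖q.2‖ := norm_pos_iff.mpr hv'
      have he : ‖‖q.2‖⁻¹ • q.2‖ = 1 := by
        rw [norm_smul, norm_inv, norm_norm, inv_mul_cancel₀ hn.ne']
      have hy0 : 0 ≤ ‖q.1.2‖ := norm_nonneg _
      have hl0 : 0 ≤ max 0 (1 - 2 * s) := le_max_left _ _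
      have hl1 : max 0 (1 - 2 * s) ≤ 1 := max_le zero_le_one (by linarith)
      have hm0 : 0 ≤ min 1 (2 - 2 * s) := le_min zero_le_one (by linarith)
      have hm1 : min 1 (2 - 2 * s) ≤ 1 := min_le_left _ _
      have hrho0 : 0 ≤ ‖q.1.2‖ + max 0 (1 - 2 * s) * ((r - ‖q.1.2‖) / 2) := by
        have := mul_nonneg hl0 (by linarith : 0 ≤ (r - ‖q.1.2‖) / 2)
        linarith
      have hrho1 : ‖q.1.2‖ + max 0 (1 - 2 * s) * ((r - ‖q.1.2‖) / 2) < r := by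
        have := mul_le_mul_of_nonneg_right hl1 (by linarith : 0 ≤ (r - ‖q.1.2‖) / 2)
        linarith
      have htau0 : 0 < ‖q.2‖ + min 1 (2 - 2 * s) * (1 - ‖q.2‖) := by
        have := mul_nonneg hm0 (by linarith : 0 ≤ 1 - ‖q.2‖)
        linarith
      have htau1 : ‖q.2‖ + min 1 (2 - 2 * s) * (1 - ‖q.2‖) ≤ 1 := by
        have := mul_le_mul_of_nonneg_right hm1 (by linarith : 0 ≤ 1 - ‖q.2‖)
        linarith
      have hkey : ‖q.1.2‖ + max 0 (1 - 2 * s) * ((r - ‖q.1.2‖) / 2) = 0 ∨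
          ‖q.2‖ + min 1 (2 - 2 * s) * (1 - ‖q.2‖) = 1 := by
        by_cases hy : q.1.2 = 0
        · rcases le_total (1 - 2 * s) 0 with h | h
          · left
            rw [hy, norm_zero, max_eq_left h]; ring
          · right
            rw [min_eq_left (by linarith)]; ring
        · right
          rw [lm_norm_one hy h4]; ring
      refine ⟨?_, ?_⟩
      · rw [lm_mem_TT]
        refine ⟨h1, ?_, ?_, ?_⟩
        · show ‖(‖q.1.2‖ + max 0 (1 - 2 * s) * ((r - ‖q.1.2‖) / 2)) • (‖q.2‖⁻¹ • q.2)‖ < r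
          rw [norm_smul, he, Real.norm_eq_abs, abs_of_nonneg hrho0, mul_one]
          exact hrho1
        · show ‖(‖q.2‖ + min 1 (2 - 2 * s) * (1 - ‖q.2‖)) • (‖q.2‖⁻¹ • q.2)‖ ≤ 1
          rw [norm_smul, he, Real.norm_eq_abs, abs_of_pos htau0, mul_one]
          exact htau1
        · show (‖q.1.2‖ + max 0 (1 - 2 * s) * ((r - ‖q.1.2‖) / 2)) • (‖q.2‖⁻¹ • q.2) =
            ‖(‖q.1.2‖ + max 0 (1 - 2 * s) * ((r - ‖q.1.2‖) / 2)) • (‖q.2‖⁻¹ • q.2)‖ •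
              ((‖q.2‖ + min 1 (2 - 2 * s) * (1 - ‖q.2‖)) • (‖q.2‖⁻¹ • q.2))
          rcases hkey with h | h
          · rw [h]; simp
          · rw [h, one_smul, norm_smul, he, Real.norm_eq_abs, abs_of_nonneg hrho0, mul_one]
      · show (‖q.2‖ + min 1 (2 - 2 * s) * (1 - ‖q.2‖)) • (‖q.2‖⁻¹ • q.2) ≠ 0
        exact smul_ne_zero htau0.ne' (smul_ne_zero (inv_ne_zero hn.ne') hv')
    · rintro ⟨⟨a, y⟩, v⟩ ⟨hq, hv⟩
      have hv' : v ≠ 0 := hv
      have hn : ‖v‖ ≠ 0 := norm_ne_zero_iff.mpr hv'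
      have he : ‖‖v‖⁻¹ • v‖ = 1 := by
        rw [norm_smul, norm_inv, norm_norm, inv_mul_cancel₀ hn]
      have hp : 0 < (‖y‖ + r) / 2 := by have := norm_nonneg y; linarith
      show ((a, (‖y‖ + max 0 (1 - 2 * (0 : ℝ)) * ((r - ‖y‖) / 2)) • (‖v‖⁻¹ • v)),
          (‖v‖ + min 1 (2 - 2 * (0 : ℝ)) * (1 - ‖v‖)) • (‖v‖⁻¹ • v)) =
        ((a, ((‖y‖ + r) / 2) • (‖v‖⁻¹ • v)),
          ‖((‖y‖ + r) / 2) • (‖v‖⁻¹ • v)‖⁻¹ • (((‖y‖ + r) / 2) • (‖v‖⁻¹ • v)))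
      have h1 : max (0 : ℝ) (1 - 2 * 0) = 1 := by norm_num
      have h2 : min (1 : ℝ) (2 - 2 * 0) = 1 := by norm_num
      have h3 : ‖((‖y‖ + r) / 2) • (‖v‖⁻¹ • v)‖ = (‖y‖ + r) / 2 := by
        rw [norm_smul, he, Real.norm_eq_abs, abs_of_pos hp, mul_one]
      have h4 : ‖y‖ + 1 * ((r - ‖y‖) / 2) = (‖y‖ + r) / 2 := by ring
      have h5 : ‖v‖ + 1 * (1 - ‖v‖) = 1 := by ring
      rw [h1, h2, h3, h4, h5, smul_smul ((‖y‖ + r) / 2)⁻¹, inv_mul_cancel₀ hp.ne']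
    · rintro ⟨⟨a, y⟩, v⟩ ⟨hq, hv⟩
      have hv' : v ≠ 0 := hv
      have hn : ‖v‖ ≠ 0 := norm_ne_zero_iff.mpr hv'
      rw [lm_mem_TT] at hq
      obtain ⟨_, _, _, h4⟩ := hq
      simp only at h4
      show ((a, (‖y‖ + max 0 (1 - 2 * (1 : ℝ)) * ((r - ‖y‖) / 2)) • (‖v‖⁻¹ • v)),
          (‖v‖ + min 1 (2 - 2 * (1 : ℝ)) * (1 - ‖v‖)) • (‖v‖⁻¹ • v)) = ((a, y), v)
      have h1 : max (0 : ℝ) (1 - 2 * 1) = 0 := by norm_num
      have h2 : min (1 : ℝ) (2 - 2 * 1) = 0 := by norm_num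
      have h5 : ‖v‖ • (‖v‖⁻¹ • v) = v := by rw [smul_smul, mul_inv_cancel₀ hn, one_smul]
      have h6 : ‖y‖ • (‖v‖⁻¹ • v) = y := by
        by_cases hy : y = 0
        · rw [hy]; simp
        · rw [lm_norm_one hy h4, inv_one, one_smul, ← h4]
      rw [h1, h2, zero_mul, zero_mul, add_zero, add_zero, h5, h6]

end

/-- Module LM. -/
theorem hLM : StHEQ → StLM := by
  intro hH B _ G _ _ A r hr
  exact ⟨lm_part1 hH A r hr, lm_part2 hH A r hr⟩

end Pool.Agent.Helper13.FX
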