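import Pool.Agent.Helper72.FX.StC1

/-!
# Project FX, module PMC: kernel and cokernel of `C x` on `M[X]`
-/

set_option autoImplicit false

namespace Pool.Agent.Helper13.FX

open Polynomial Pool.Agent.Helper72.FX

section

variable {A : Type} [CommRing A] {M : Type} [AddCommGroup M] [Module A M]

theorem pmc_C_smul_coeff (x : A) (g : PolynomialModule A M) (n : ℕ) :
    ((C x : A[X]) • g).coeff n = x • g.coeff n := by
  rw [← monomial_zero_left, PolynomialModule.monomial_smul_apply]
  simp

theorem pmc_pmap_lsmul (x : A) :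
    pmap (LinearMap.lsmul A M x) = LinearMap.lsmul A[X] (PolynomialModule A M) (C x) := by
  refine LinearMap.ext fun g => ?_
  refine PolynomialModule.ext ?_
  refine Finsupp.ext fun n => ?_
  rw [pmap_coeff]
  show x • g.coeff n = ((C x : A[X]) • g).coeff n
  rw [pmc_C_smul_coeff]

end

/-- Module PMC. -/
theorem hPMC : StPMC := by
  intro hX A _ M _ _ x
  refine ⟨?_, ?_⟩
  · have hs : Function.Surjective
        (pmap (LinearMap.range (LinearMap.lsmul A M x)).mkQ) :=
      (hX A M (Ck x M) (Ck x M) (LinearMap.range (LinearMap.lsmul A M x)).mkQ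
        (0 : Ck x M →ₗ[A] Ck x M)).2.1 (Submodule.mkQ_surjective _)
    have he : Function.Exact (pmap (LinearMap.lsmul A M x))
        (pmap (LinearMap.range (LinearMap.lsmul A M x)).mkQ) :=
      (hX A M M (Ck x M) (LinearMap.lsmul A M x)
        (LinearMap.range (LinearMap.lsmul A M x)).mkQ).2.2.1
        (LinearMap.exact_map_mkQ_range _)
    have hk : LinearMap.ker (pmap (LinearMap.range (LinearMap.lsmul A M x)).mkQ) =
        LinearMap.range (LinearMap.lsmul A[X] (PolynomialModule A M) (C x)) := by
      rw [← pmc_pmap_lsmul]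
      exact LinearMap.exact_iff.mp he
    exact ⟨(Submodule.quotEquivOfEq _ _ hk.symm).trans
      (LinearMap.quotKerEquivOfSurjective _ hs)⟩
  · have hi : Function.Injective (pmap (LinearMap.ker (LinearMap.lsmul A M x)).subtype) :=
      (hX A (Kn x M) M M (LinearMap.ker (LinearMap.lsmul A M x)).subtype
        (LinearMap.lsmul A M x)).1 (Submodule.subtype_injective _)
    have he : Function.Exact (pmap (LinearMap.ker (LinearMap.lsmul A M x)).subtype)
        (pmap (LinearMap.lsmul A M x)) :=
      (hX A (Kn x M) M M (LinearMap.ker (LinearMap.lsmul A M x)).subtype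
        (LinearMap.lsmul A M x)).2.2.1 (LinearMap.exact_subtype_ker_map _)
    have hk : LinearMap.ker (LinearMap.lsmul A[X] (PolynomialModule A M) (C x)) =
        LinearMap.range (pmap (LinearMap.ker (LinearMap.lsmul A M x)).subtype) := by
      rw [← pmc_pmap_lsmul]
      exact LinearMap.exact_iff.mp he
    exact ⟨(LinearEquiv.ofEq _ _ hk).trans (LinearEquiv.ofInjective _ hi).symm⟩

end Pool.Agent.Helper13.FX
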